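import Mathlib
import Pool.Agent.W25.UN.Stm2
import Pool.Agent.H362R2.CM.Pt
import Pool.Agent.H361R2.Ana

/-! Project UN (helper25), part PT: pointwise bound of the sieve weights of affine forms. -/

set_option autoImplicit false

namespace Pool.Agent.W714.UN.Pt

open Finset Filter Topology
open Pool.Agent.H410R2 hiding GP GP_prof GP_cut_some GP_cut_none GP_lip gg_pos gg_le_one gg_anti ee_bound ee_nonneg gg_lip LB_gg LB_ee Sums exists_sums yx wx wxi Br sum_GP_none sum_GP_some sum_GP_some_ee sum_GP_some_one sum_GPr_none sum_GPr_some S1_final QI_final S2_final w_abs_le wmax gg ee I1 I2 IE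
open Pool.Agent.H361R2.GM
open Pool.Agent.H362R2.CM
open Pool.Agent.W25.UN

/-- the product of the forms -/
def NZ {k : ℕ} (u w : Option (Fin k) → ℤ) (n : ℕ) : ℕ := ∏ j, LZ u w j n

theorem card_le_omega {k : ℕ} (u w : Option (Fin k) → ℤ) (P : Finset ℕ)
    (hP : ∀ p ∈ P, p.Prime) (n : ℕ) (hn : NZ u w n ≠ 0) :
    (univ.filter (fun t : IP P => ∃ j, prP P t ∣ LZ u w j n)).card ≤
      (NZ u w n).primeFactors.card := by
  apply Finset.card_le_card_of_injOn (fun t => t.1)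
  · intro t ht
    simp only [Finset.coe_filter, Finset.mem_univ, true_and, Set.mem_setOf_eq] at ht
    obtain ⟨j, hj⟩ := ht
    simp only [Finset.mem_coe, Nat.mem_primeFactors]
    exact ⟨hP t.1 t.2, hj.trans (Finset.dvd_prod_of_mem _ (Finset.mem_univ j)), hn⟩
  · intro s _ t _ h
    exact Subtype.ext h

theorem w_abs_le {k : ℕ} (Q : SPar) (u w : Option (Fin k) → ℤ) (P : Finset ℕ)
    (hP : ∀ p ∈ P, p.Prime)
    (hsd : SieveData (IP P) (Option (Fin k)) (prP P) (LZ u w) 1)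
    (L : ℝ) (hL : 0 < L) (n : ℕ) (hn : NZ u w n ≠ 0) :
    (|wZ Q u w P L n| ≤ (∏ t : IP P, (1 + 2 * ((k + 1 : ℕ) : ℝ) / (prP P t : ℝ))) *
        2 ^ (NZ u w n).primeFactors.card) ∧
    ∀ i, (|wIZ u w P i (yP Q k P L) n| ≤
        (∏ t : IP P, (1 + 2 * ((k + 1 : ℕ) : ℝ) / (prP P t : ℝ))) *
        2 ^ (NZ u w n).primeFactors.card) := by
  have hL0 : 0 < L / 48 := by positivity
  have hprof := GP_prof Q k (L) (L / 48) hL hL0
  have hp : ∀ t, 2 ≤ prP P t := fun t => (hsd.prime t).two_le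
  have hy : ∀ σ, |yP Q k P L σ| ≤ 1 := by
    intro σ
    rw [yP, abs_of_nonneg (yw_nonneg _ _ _ hprof _ _)]
    exact yw_le_one _ _ _ hprof _ _
  have hprod : (∏ t : IP P, (1 + (Fintype.card (Option (Fin k)) : ℝ) /
      ((prP P t : ℝ) - 1))) ≤ ∏ t : IP P, (1 + 2 * ((k + 1 : ℕ) : ℝ) / (prP P t : ℝ)) := by
    rw [cardJ]
    apply Finset.prod_le_prod
    · intro t _
      have : (2 : ℝ) ≤ prP P t := by exact_mod_cast hp t
      have : (0 : ℝ) < (prP P t : ℝ) - 1 := by linarith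
      positivity
    · intro t _
      have h2 : (2 : ℝ) ≤ prP P t := by exact_mod_cast hp t
      have h1 : (0 : ℝ) < (prP P t : ℝ) - 1 := by linarith
      have h0 : (0 : ℝ) < (prP P t : ℝ) := by linarith
      have hk : (0 : ℝ) ≤ ((k + 1 : ℕ) : ℝ) := Nat.cast_nonneg _
      have : ((k + 1 : ℕ) : ℝ) / ((prP P t : ℝ) - 1) ≤ 2 * ((k + 1 : ℕ) : ℝ) / (prP P t : ℝ) := by
        rw [div_le_div_iff₀ h1 h0]
        nlinarith
      linarith
  have hprod0 : 0 ≤ ∏ t : IP P, (1 + 2 * ((k + 1 : ℕ) : ℝ) / (prP P t : ℝ)) :=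
    Finset.prod_nonneg fun t _ => by positivity
  have hcard : (2 : ℝ) ^ (univ.filter (fun t : IP P => ∃ j, prP P t ∣ LZ u w j n)).card ≤
      2 ^ (NZ u w n).primeFactors.card :=
    pow_le_pow_right₀ (by norm_num) (card_le_omega u w P hP n hn)
  have hfin : (∏ t : IP P, (1 + (Fintype.card (Option (Fin k)) : ℝ) / ((prP P t : ℝ) - 1))) *
        2 ^ (univ.filter (fun t : IP P => ∃ j, prP P t ∣ LZ u w j n)).card ≤
      (∏ t : IP P, (1 + 2 * ((k + 1 : ℕ) : ℝ) / (prP P t : ℝ))) *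
        2 ^ (NZ u w n).primeFactors.card :=
    mul_le_mul hprod hcard (by positivity) hprod0
  constructor
  · refine le_trans ?_ hfin
    have := pointwise (prP P) hp (LZ u w) n (fun t i j => hsd.excl t i j n) (yP Q k P L) hy
      (fun t v => hl (LZ u w) (prP P t) n v) (fun t => by simp [hl]) (fun t j => by
        have h2 : (2 : ℝ) ≤ prP P t := by exact_mod_cast hp t
        simp only [hl]
        split_ifs with h
        · rw [abs_of_nonneg (by linarith)]; linarith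
        · simp)
    unfold wZ hN
    exact this
  · intro i
    refine le_trans ?_ hfin
    have := pointwise (prP P) hp (LZ u w) n (fun t i j => hsd.excl t i j n) (yP Q k P L) hy
      (fun t v => hlI (some i) (LZ u w) (prP P t) n v) (fun t => by simp [hlI]) (fun t j => by
        have h2 : (2 : ℝ) ≤ prP P t := by exact_mod_cast hp t
        simp only [hlI]
        split_ifs with h1 h2 h2
        · rw [abs_neg, abs_one]; linarith
        · rw [abs_neg, abs_one]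
        · rw [abs_of_nonneg (by linarith)]; linarith
        · simp)
    unfold wIZ hNI
    exact this

theorem NZ_eq {k : ℕ} (α h : Fin k → ℤ) (N n : ℕ) :
    NZ (uB α) (wB h N) n = n * ∏ i, (N + α i * n + h i).natAbs := by
  unfold NZ
  rw [Fintype.prod_option]
  congr 1
  · simp [LZ, uB, wB]
  · refine Finset.prod_congr rfl fun i _ => ?_
    simp only [LZ, uB, wB]
    congr 1
    ring

theorem NZ_ne {k : ℕ} (α h : Fin k → ℤ) (N n : ℕ) (hn : 1 ≤ n)
    (hne : ∀ i, N + α i * n + h i ≠ 0) : NZ (uB α) (wB h N) n ≠ 0 := by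
  rw [NZ_eq]
  refine Nat.mul_ne_zero (by omega) ?_
  rw [Finset.prod_ne_zero_iff]
  intro i _
  exact Int.natAbs_ne_zero.2 (hne i)

theorem NZ_le {k : ℕ} (α h : Fin k → ℤ) (N n : ℕ) (hn : 1 ≤ n) (hnN : n ≤ N) :
    (NZ (uB α) (wB h N) n : ℝ) ≤
      (∏ i, (1 + |(α i : ℝ)| + |(h i : ℝ)|)) * (N : ℝ) ^ (k + 1) := by
  have hN1 : (1 : ℝ) ≤ N := by exact_mod_cast hn.trans hnN
  have hnN' : (n : ℝ) ≤ N := by exact_mod_cast hnN
  have hn0 : (0 : ℝ) ≤ n := Nat.cast_nonneg _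
  rw [NZ_eq]
  push_cast
  have h1 : ∏ i, |((N : ℝ) + α i * n + h i)| ≤ ∏ i : Fin k, ((1 + |(α i : ℝ)| + |(h i : ℝ)|) * N) := by
    apply Finset.prod_le_prod
    · intro i _; positivity
    · intro i _
      calc |((N : ℝ) + α i * n + h i)| ≤ |(N : ℝ) + α i * n| + |(h i : ℝ)| := abs_add_le _ _
        _ ≤ |(N : ℝ)| + |(α i : ℝ) * n| + |(h i : ℝ)| := by
            gcongr; exact abs_add_le _ _
        _ = N + |(α i : ℝ)| * n + |(h i : ℝ)| * 1 := by
            rw [abs_mul, abs_of_nonneg hn0, abs_of_nonneg (by linarith : (0 : ℝ) ≤ N), mul_one]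
        _ ≤ N + |(α i : ℝ)| * N + |(h i : ℝ)| * N := by gcongr
        _ = _ := by ring
  rw [Finset.prod_mul_distrib, Finset.prod_const, Finset.card_univ, Fintype.card_fin] at h1
  have hc : ∀ i, ((N + α i * n + h i : ℤ).natAbs : ℝ) = |((N : ℝ) + α i * n + h i)| := by
    intro i
    rw [Nat.cast_natAbs]
    push_cast
    rfl
  simp only [hc]
  calc (n : ℝ) * ∏ i, |((N : ℝ) + α i * n + h i)|
      ≤ N * ((∏ i, (1 + |(α i : ℝ)| + |(h i : ℝ)|)) * (N : ℝ) ^ k) := by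
        apply mul_le_mul hnN' h1 (Finset.prod_nonneg fun i _ => abs_nonneg _) (by linarith)
    _ = _ := by ring

theorem main : PtwU := by
  intro k α h Q e he
  obtain ⟨C, hC, m, h1⟩ := Pool.Agent.H361R2.prodBound (2 * ((k + 1 : ℕ) : ℝ)) (by positivity)
  set e2 : ℝ := e / (4 * ((k + 1 : ℕ) : ℝ)) with he2
  have he2p : 0 < e2 := by positivity
  obtain ⟨C', hC', h2⟩ := Pool.Agent.H361R2.omegaBound 2 (by norm_num) e2 he2p
  set A : ℝ := ∏ i, (1 + |(α i : ℝ)| + |(h i : ℝ)|) with hA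
  have hA0 : 0 ≤ A := Finset.prod_nonneg fun i _ => by positivity
  have hev := (tendsto_natCast_atTop_atTop (R := ℝ)).eventually
    (ev_polylog (C ^ 2 * C' ^ 2 * (A ^ e2) ^ 2) (2 * m) (e / 2) e (by linarith))
  filter_upwards [hev, eventually_ge_atTop 3] with N hx2 hN3 P L hL hP hsd n hn hnN hne
  have hx3 : (3 : ℝ) ≤ N := by exact_mod_cast hN3
  have hx0 : (0 : ℝ) < N := by linarith
  have hlx0 : 0 < Real.log N := Real.log_pos (by linarith)
  have hNZ := NZ_ne α h N n hn hne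
  have hprodP : ∏ t : IP P, (1 + 2 * ((k + 1 : ℕ) : ℝ) / (prP P t : ℝ)) ≤
      C * (Real.log N) ^ m := by
    have h3 : ∏ t : IP P, (1 + 2 * ((k + 1 : ℕ) : ℝ) / (prP P t : ℝ)) =
        ∏ p ∈ P, (1 + 2 * ((k + 1 : ℕ) : ℝ) / (p : ℝ)) :=
      Finset.prod_coe_sort P (fun p => 1 + 2 * ((k + 1 : ℕ) : ℝ) / (p : ℝ))
    rw [h3]
    refine le_trans ?_ (h1 N hx3)
    apply prod_le_prod_subset
    · intro p hp
      rw [Finset.mem_filter, Finset.mem_Icc, Nat.floor_natCast]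
      exact ⟨⟨(hP p hp).1.one_lt.le, (hP p hp).2⟩, (hP p hp).1⟩
    · intro p _
      have : 0 ≤ 2 * ((k + 1 : ℕ) : ℝ) / (p : ℝ) := by positivity
      linarith
  have hom : (2 : ℝ) ^ (NZ (uB α) (wB h N) n).primeFactors.card ≤
      C' * (A ^ e2 * (N : ℝ) ^ (e / 4)) := by
    refine le_trans (h2 _ (Nat.one_le_iff_ne_zero.2 hNZ)) ?_
    apply mul_le_mul_of_nonneg_left _ hC'.le
    calc (NZ (uB α) (wB h N) n : ℝ) ^ e2 ≤ (A * (N : ℝ) ^ (k + 1)) ^ e2 :=
          Real.rpow_le_rpow (Nat.cast_nonneg _) (NZ_le α h N n hn hnN) he2p.le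
      _ = A ^ e2 * (N : ℝ) ^ (e / 4) := by
          rw [Real.mul_rpow hA0 (by positivity), ← Real.rpow_natCast, ← Real.rpow_mul hx0.le]
          congr 2
          rw [he2]
          have : ((k + 1 : ℕ) : ℝ) ≠ 0 := by positivity
          field_simp
  have hfin : ∀ w : ℝ, |w| ≤ (∏ t : IP P, (1 + 2 * ((k + 1 : ℕ) : ℝ) /
      (prP P t : ℝ))) * 2 ^ (NZ (uB α) (wB h N) n).primeFactors.card → w ^ 2 ≤ (N : ℝ) ^ e := by
    intro w hw
    have hP0 : 0 ≤ ∏ t : IP P, (1 + 2 * ((k + 1 : ℕ) : ℝ) / (prP P t : ℝ)) :=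
      Finset.prod_nonneg fun t _ => by positivity
    have h3 : |w| ≤ (C * (Real.log N) ^ m) * (C' * (A ^ e2 * (N : ℝ) ^ (e / 4))) :=
      hw.trans (mul_le_mul hprodP hom (by positivity) (by positivity))
    calc w ^ 2 = |w| ^ 2 := (sq_abs w).symm
      _ ≤ ((C * (Real.log N) ^ m) * (C' * (A ^ e2 * (N : ℝ) ^ (e / 4)))) ^ 2 :=
          pow_le_pow_left₀ (abs_nonneg _) h3 2
      _ = C ^ 2 * C' ^ 2 * (A ^ e2) ^ 2 * (Real.log N) ^ (2 * m) * ((N : ℝ) ^ (e / 4)) ^ 2 := by ring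
      _ = C ^ 2 * C' ^ 2 * (A ^ e2) ^ 2 * (Real.log N) ^ (2 * m) * (N : ℝ) ^ (e / 2) := by
          congr 1
          rw [← Real.rpow_natCast, ← Real.rpow_mul hx0.le]
          congr 1
          push_cast
          ring
      _ ≤ _ := hx2
  have h4 := w_abs_le Q (uB α) (wB h N) P (fun p hp => (hP p hp).1) hsd L hL n hNZ
  exact ⟨hfin _ h4.1, fun i => hfin _ (h4.2 i)⟩

end Pool.Agent.W714.UN.Pt
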